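import Pool.Agent.Helper17.SA.St

/-!
# Project SA (MP_21f9f3_al), module UB
-/

set_option autoImplicit false

namespace Pool.Agent.Helper72.SA

open Equiv Pool.Agent.Helper17.SA Finset

open scoped Classical in
/-- the nontrivial elements of order dividing `p` -/
noncomputable def UB_Y {m : ℕ} (H : Subgroup (Perm (Fin m))) (p : ℕ) : Finset (Perm (Fin m)) :=
  univ.filter (fun y => y ∈ H ∧ y ≠ 1 ∧ y ^ p = 1)

open scoped Classical in
/-- the elements of a given cycle type -/
noncomputable def UB_Z {m : ℕ} (H : Subgroup (Perm (Fin m))) (p k : ℕ) : Finset (Perm (Fin m)) :=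
  univ.filter (fun y => y ∈ H ∧ y.cycleType = Multiset.replicate k p)

theorem UB_cc {m : ℕ} (H : Subgroup (Perm (Fin m))) (p k : ℕ) : cc H p k = (UB_Z H p k).card := by
  classical
  unfold cc UB_Z
  rw [Nat.card_eq_fintype_card, Fintype.card_subtype]

open scoped Classical in
theorem UB_low {m p : ℕ} (H : Subgroup (Perm (Fin m))) (hp : p.Prime) (hH : IsPGroup p H)
    (x : Perm (Fin m)) (hx : Bad H x) :
    p - 1 ≤ ((UB_Y H p).filter (fun y => x * y * x⁻¹ ∈ H)).card := by
  obtain ⟨y0, hy0, hne, hc⟩ := hx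
  obtain ⟨k, hk⟩ := hH ⟨y0, hy0⟩
  have hk' : y0 ^ (p ^ k) = 1 := by
    have := congrArg Subtype.val hk
    simpa using this
  obtain ⟨e, -, he⟩ := (Nat.dvd_prime_pow hp).1 (orderOf_dvd_of_pow_eq_one hk')
  have he0 : e ≠ 0 := by
    rintro rfl
    rw [pow_zero, orderOf_eq_one_iff] at he
    exact hne he
  obtain ⟨f, rfl⟩ : ∃ f, e = f + 1 := ⟨e - 1, by omega⟩
  have hord : orderOf (y0 ^ (p ^ f)) = p := by
    rw [orderOf_pow_of_dvd (pow_ne_zero _ hp.ne_zero) (by rw [he, pow_succ]; exact dvd_mul_right _ _),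
      he, pow_succ, Nat.mul_div_cancel_left _ (pow_pos hp.pos _)]
  have hcard : p - 1 = (Icc 1 (p - 1)).card := by rw [Nat.card_Icc]; omega
  rw [hcard]
  apply card_le_card_of_injOn (fun i => (y0 ^ (p ^ f)) ^ i)
  · intro i hi
    have hi' := mem_Icc.1 (mem_coe.1 hi)
    have h2 := hp.two_le
    rw [mem_coe, mem_filter]
    unfold UB_Y
    rw [mem_filter]
    refine ⟨⟨mem_univ _, H.pow_mem (H.pow_mem hy0 _) _, ?_, ?_⟩, ?_⟩
    · intro h
      have h3 := Nat.le_of_dvd (by omega) (orderOf_dvd_of_pow_eq_one h)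
      rw [hord] at h3
      omega
    · rw [← pow_mul, mul_comm i p, pow_mul]
      have : (y0 ^ p ^ f) ^ p = 1 := by
        have h4 := pow_orderOf_eq_one (y0 ^ (p ^ f))
        rw [hord] at h4
        exact h4
      rw [this, one_pow]
    · change x * (y0 ^ (p ^ f)) ^ i * x⁻¹ ∈ H
      rw [← conj_pow, ← conj_pow]
      exact H.pow_mem (H.pow_mem hc _) _
  · intro i hi j hj hij
    have hi' := mem_Icc.1 (mem_coe.1 hi)
    have hj' := mem_Icc.1 (mem_coe.1 hj)
    have h2 := hp.two_le
    have hinj := pow_injOn_Iio_orderOf (x := y0 ^ (p ^ f))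
    rw [hord] at hinj
    exact hinj (Set.mem_Iio.2 (by omega)) (Set.mem_Iio.2 (by omega)) hij

open scoped Classical in
theorem UB_conj {m : ℕ} (y z : Perm (Fin m)) :
    (univ.filter (fun x : Perm (Fin m) => x * y * x⁻¹ = z)).card ≤
      Nat.card (Subgroup.centralizer ({y} : Set (Perm (Fin m)))) := by
  have hc : Nat.card (Subgroup.centralizer ({y} : Set (Perm (Fin m)))) =
      (univ.filter (fun x => x ∈ Subgroup.centralizer ({y} : Set (Perm (Fin m))))).card := by
    rw [Nat.card_eq_fintype_card]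
    exact Fintype.card_subtype _
  rw [hc]
  rcases (univ.filter (fun x : Perm (Fin m) => x * y * x⁻¹ = z)).eq_empty_or_nonempty with h | h
  · rw [h, card_empty]
    exact Nat.zero_le _
  · obtain ⟨x0, hx0⟩ := h
    rw [mem_filter] at hx0
    apply card_le_card_of_injOn (fun x => x0⁻¹ * x)
    · intro x hx
      have hx' := (mem_filter.1 (mem_coe.1 hx)).2
      rw [mem_coe, mem_filter]
      refine ⟨mem_univ _, ?_⟩
      rw [Subgroup.mem_centralizer_singleton_iff]
      have e1 : x * y = z * x := by rw [← hx']; group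
      have e2 : x0 * y = z * x0 := by rw [← hx0.2]; group
      have e3 : x0⁻¹ * z = y * x0⁻¹ := by
        rw [inv_mul_eq_iff_eq_mul, ← mul_assoc, e2, mul_assoc, mul_inv_cancel, mul_one]
      change x0⁻¹ * x * y = y * (x0⁻¹ * x)
      rw [mul_assoc, e1, ← mul_assoc, e3, mul_assoc]
    · intro a _ b _ hab
      exact mul_left_cancel hab

theorem UB_cent {m p k : ℕ} (hk : 1 ≤ k) (y : Perm (Fin m))
    (hy : y.cycleType = Multiset.replicate k p) :
    Nat.card (Subgroup.centralizer ({y} : Set (Perm (Fin m)))) =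
      (m - p * k).factorial * (p ^ k * k.factorial) := by
  rw [Equiv.Perm.nat_card_centralizer, hy, Multiset.sum_replicate, Multiset.prod_replicate,
    Multiset.toFinset_replicate, if_neg (by omega), prod_singleton, Multiset.count_replicate_self,
    Fintype.card_fin, smul_eq_mul, mul_comm k p, mul_assoc]

open scoped Classical in
theorem UB_count {m p k : ℕ} (H : Subgroup (Perm (Fin m))) (hk : 1 ≤ k) (y : Perm (Fin m))
    (hy : y.cycleType = Multiset.replicate k p) :
    (univ.filter (fun x : Perm (Fin m) => x * y * x⁻¹ ∈ H)).card ≤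
      ((m - p * k).factorial * (p ^ k * k.factorial)) * cc H p k := by
  rw [UB_cc]
  apply card_le_mul_card_image_of_maps_to (f := fun x => x * y * x⁻¹)
  · intro x hx
    unfold UB_Z
    rw [mem_filter]
    refine ⟨mem_univ _, (mem_filter.1 hx).2, ?_⟩
    rw [Equiv.Perm.cycleType_conj, hy]
  · intro z _
    rw [← UB_cent hk y hy]
    refine le_trans (card_le_card ?_) (UB_conj y z)
    intro x hx
    rw [mem_filter] at hx ⊢
    exact ⟨mem_univ _, hx.2⟩

open scoped Classical in
theorem UB_type {m p : ℕ} (H : Subgroup (Perm (Fin m))) (hp : p.Prime) (y : Perm (Fin m))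
    (hy : y ∈ UB_Y H p) : y ∈ H ∧ ∃ k, 1 ≤ k ∧ k ≤ m / p ∧
      y.cycleType = Multiset.replicate k p := by
  unfold UB_Y at hy
  rw [mem_filter] at hy
  obtain ⟨-, h1, h2, h3⟩ := hy
  have hord : orderOf y = p := by
    have h := (Nat.dvd_prime hp).1 (orderOf_dvd_of_pow_eq_one h3)
    rcases h with h | h
    · exact absurd (orderOf_eq_one_iff.1 h) h2
    · exact h
  obtain ⟨n, hn⟩ := Equiv.Perm.cycleType_prime_order (σ := y) (by rw [hord]; exact hp)
  rw [hord] at hn
  refine ⟨h1, n + 1, by omega, ?_, hn⟩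
  have hs := Equiv.Perm.sum_cycleType y
  rw [hn, Multiset.sum_replicate, smul_eq_mul] at hs
  have hs2 : y.support.card ≤ m := by
    have := card_le_univ y.support
    rwa [Fintype.card_fin] at this
  rw [Nat.le_div_iff_mul_le hp.pos]
  omega

/-- UB -/
theorem pUB : StUB := by
  classical
  intro m p H hp hH
  have h1 : (p - 1) * bad H ≤
      ∑ x : Perm (Fin m), ((UB_Y H p).filter (fun y => x * y * x⁻¹ ∈ H)).card := by
    have hb : bad H = (univ.filter (fun x : Perm (Fin m) => Bad H x)).card := by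
      unfold bad
      rw [Nat.card_eq_fintype_card, Fintype.card_subtype]
    rw [hb, mul_comm, ← smul_eq_mul, ← sum_const]
    calc ∑ _x ∈ univ.filter (fun x : Perm (Fin m) => Bad H x), (p - 1)
        ≤ ∑ x ∈ univ.filter (fun x : Perm (Fin m) => Bad H x),
          ((UB_Y H p).filter (fun y => x * y * x⁻¹ ∈ H)).card :=
          sum_le_sum (fun x hx => UB_low H hp hH x (mem_filter.1 hx).2)
      _ ≤ _ := sum_le_sum_of_subset (filter_subset _ _)
  have h2 : ∑ x : Perm (Fin m), ((UB_Y H p).filter (fun y => x * y * x⁻¹ ∈ H)).card =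
      ∑ y ∈ UB_Y H p, (univ.filter (fun x : Perm (Fin m) => x * y * x⁻¹ ∈ H)).card := by
    simp_rw [card_filter]
    rw [sum_comm]
  have h3 : ∑ y ∈ UB_Y H p, (univ.filter (fun x : Perm (Fin m) => x * y * x⁻¹ ∈ H)).card =
      ∑ k ∈ Icc 1 (m / p), ∑ y ∈ (UB_Y H p).filter (fun y => Multiset.card y.cycleType = k),
        (univ.filter (fun x : Perm (Fin m) => x * y * x⁻¹ ∈ H)).card := by
    rw [sum_fiberwise_of_maps_to]
    intro y hy
    obtain ⟨-, k, hk1, hk2, hk3⟩ := UB_type H hp y hy
    rw [hk3, Multiset.card_replicate]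
    exact mem_Icc.2 ⟨hk1, hk2⟩
  refine h1.trans ?_
  rw [h2, h3]
  apply sum_le_sum
  intro k hk
  have hk1 := (mem_Icc.1 hk).1
  have hty : ∀ y ∈ (UB_Y H p).filter (fun y => Multiset.card y.cycleType = k),
      y ∈ H ∧ y.cycleType = Multiset.replicate k p := by
    intro y hy
    rw [mem_filter] at hy
    obtain ⟨hyH, k', -, -, hk3⟩ := UB_type H hp y hy.1
    refine ⟨hyH, ?_⟩
    have h4 := hy.2
    rw [hk3, Multiset.card_replicate] at h4
    rw [hk3, h4]
  calc ∑ y ∈ (UB_Y H p).filter (fun y => Multiset.card y.cycleType = k),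
        (univ.filter (fun x : Perm (Fin m) => x * y * x⁻¹ ∈ H)).card
      ≤ ∑ _y ∈ (UB_Y H p).filter (fun y => Multiset.card y.cycleType = k),
        ((m - p * k).factorial * (p ^ k * k.factorial)) * cc H p k :=
        sum_le_sum (fun y hy => UB_count H hk1 y (hty y hy).2)
    _ = ((UB_Y H p).filter (fun y => Multiset.card y.cycleType = k)).card *
        (((m - p * k).factorial * (p ^ k * k.factorial)) * cc H p k) := by
        rw [sum_const, smul_eq_mul]
    _ ≤ cc H p k * (((m - p * k).factorial * (p ^ k * k.factorial)) * cc H p k) := by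
        apply Nat.mul_le_mul_right
        rw [UB_cc]
        apply card_le_card
        intro y hy
        unfold UB_Z
        rw [mem_filter]
        exact ⟨mem_univ _, hty y hy⟩
    _ = (cc H p k) ^ 2 * (m - p * k).factorial * p ^ k * k.factorial := by ring

end Pool.Agent.Helper72.SA
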