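import Pool.Agent.Helper17.SA.St3

set_option autoImplicit false

open scoped Pointwise

namespace Pool.Agent.Helper72.SA

open Equiv Pool.Agent.Helper17.SA

/-- Conjugation of an element of one factor. -/
theorem conj_single {Ω : Type} [DecidableEq Ω] {S : Ω → Type} [∀ ω, Group (S ω)]
    (x : ∀ ω, S ω) (ω : Ω) (a : S ω) :
    MulAut.conj x (Pi.mulSingle ω a) = Pi.mulSingle ω (x ω * a * (x ω)⁻¹) := by
  rw [MulAut.conj_apply]
  funext ω'
  by_cases h : ω' = ω
  · subst h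
    simp
  · simp [Pi.mulSingle_eq_of_ne h]

theorem conj_inv_single {Ω : Type} [DecidableEq Ω] {S : Ω → Type} [∀ ω, Group (S ω)]
    (x : ∀ ω, S ω) (ω : Ω) (a : S ω) :
    (MulAut.conj x)⁻¹ (Pi.mulSingle ω a) = Pi.mulSingle ω ((x ω)⁻¹ * a * x ω) := by
  rw [← map_inv, conj_single, Pi.inv_apply, inv_inv]

/-- The restriction of an automorphism to a factor that it preserves. -/
theorem exists_restr {Ω : Type} [DecidableEq Ω] {S : Ω → Type} [∀ ω, Group (S ω)]
    [∀ ω, Finite (S ω)] (y : MulAut (∀ ω, S ω)) (ω : Ω)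
    (h : ∀ a : S ω, ∃ b : S ω, y (Pi.mulSingle ω a) = Pi.mulSingle ω b) :
    ∃ t : MulAut (S ω), ∀ a : S ω, y (Pi.mulSingle ω a) = Pi.mulSingle ω (t a) := by
  have h1 : ∀ a : S ω, y (Pi.mulSingle ω a) = Pi.mulSingle ω ((y (Pi.mulSingle ω a)) ω) := by
    intro a
    obtain ⟨b, hb⟩ := h a
    rw [hb, Pi.mulSingle_eq_same]
  let f : S ω →* S ω :=
    { toFun := fun a => (y (Pi.mulSingle ω a)) ω
      map_one' := by
        change (y (Pi.mulSingle ω 1)) ω = 1
        rw [Pi.mulSingle_one, map_one, Pi.one_apply]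
      map_mul' := by
        intro a b
        change (y (Pi.mulSingle ω (a * b))) ω = (y (Pi.mulSingle ω a)) ω * (y (Pi.mulSingle ω b)) ω
        rw [Pi.mulSingle_mul, map_mul, Pi.mul_apply] }
  have hf : Function.Injective f := by
    intro a b hab
    have hab' : (y (Pi.mulSingle ω a)) ω = (y (Pi.mulSingle ω b)) ω := hab
    have h2 : y (Pi.mulSingle ω a) = y (Pi.mulSingle ω b) := by
      rw [h1 a, h1 b, hab']
    exact Pi.mulSingle_injective ω (y.injective h2)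
  refine ⟨MulEquiv.ofBijective f (Finite.injective_iff_bijective.mp hf), fun a => ?_⟩
  rw [MulEquiv.ofBijective_apply]
  exact h1 a

theorem pMN : StPER → StMN1 → StMN2 → StCHO → StMN := by
  classical
  intro hPER hMN1 hMN2 hCHO
  intro Ω _ S _ _ hsim hna hamp ι _ p R c hp hinj hR hcomm
  by_cases hι : Nonempty ι
  swap
  · exact ⟨1, fun i => absurd ⟨i⟩ hι⟩
  obtain ⟨σ, hσ1, hσ2⟩ := hPER Ω S hsim hna
  have hrel := fun i => hMN1 Ω S hsim hna (R i)
  let g : ∀ ω, Set (S ω) := fun ω => {n | ∀ i, ∀ t ∈ Res (R i) ω,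
     MulAut.conj (c i ω * n) * t * (MulAut.conj (c i ω * n))⁻¹ ∈ Res (R i) ω → t = 1}
  have hF : ∀ i ω, ∃ F : Finset (S ω), (∀ n ∈ F, n ∈ g ω) ∧ F.card = kap (p i) + 1 ∧
        ∀ n ∈ F, ∀ n' ∈ F, Rel (R i) ω ω (c i ω * n) (c i ω * n') → n = n' := by
    intro i ω
    have h1 := hamp ω ι p hp hinj (fun i => Res (R i) ω) (fun i => c i ω)
      (fun i => (hrel i).2.2.2 (p i) (hR i) ω) i
    have h2 : Nat.card {n : S ω // ∀ i, ∀ t ∈ Res (R i) ω,
          MulAut.conj (c i ω * n) * t * (MulAut.conj (c i ω * n))⁻¹ ∈ Res (R i) ω → t = 1} =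
          (Set.toFinite (g ω)).toFinset.card := by
      rw [← Set.ncard_eq_toFinset_card]
      exact Nat.card_coe_set_eq (g ω)
    rw [h2] at h1
    obtain ⟨F, hF1, hF2, hF3⟩ := hMN2 Ω S hsim hna (R i) ω (c i ω)
      (Set.toFinite (g ω)).toFinset (kap (p i)) h1
    exact ⟨F, fun n hn => by simpa using hF1 n hn, hF2, hF3⟩
  have hgne : ∀ ω, (g ω).Nonempty := by
    intro ω
    obtain ⟨i⟩ := hι
    obtain ⟨F, hF1, hF2, _⟩ := hF i ω
    have : F.Nonempty := by
      rw [← Finset.card_pos, hF2]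
      omega
    obtain ⟨n, hn⟩ := this
    exact ⟨n, hF1 n hn⟩
  let s : ι → Setoid (Σ ω, S ω) := fun i =>
    { r := fun a b => Rel (R i) a.1 b.1 a.2 b.2
      iseqv :=
        { refl := fun a => (hrel i).1 a.1 a.2
          symm := fun {a b} h => (hrel i).2.1 a.1 b.1 a.2 b.2 h
          trans := fun {a b d} h h' => (hrel i).2.2.1 a.1 b.1 d.1 a.2 b.2 d.2 h h' } }
  let col : ∀ i ω, S ω → Quotient (s i) := fun i ω n => Quotient.mk (s i) ⟨ω, c i ω * n⟩
  have hcol : ∀ i ω ω' (n : S ω) (n' : S ω'), col i ω n = col i ω' n' →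
      Rel (R i) ω ω' (c i ω * n) (c i ω' * n') := by
    intro i ω ω' n n' h
    exact Quotient.exact h
  obtain ⟨n, hn1, hn2⟩ := hCHO Ω ι p (fun i => (R i).map σ) S (fun i => Quotient (s i)) col g
    hp hinj (fun i => (hR i).map σ) (by
      rintro i j hij _ ⟨y, hy, rfl⟩ _ ⟨z, hz, rfl⟩
      obtain ⟨m, hm⟩ := hcomm i j hij y hy z hz
      have := congrArg σ hm
      rw [map_mul, map_mul, map_mul, hσ2, one_mul] at this
      exact this) hgne (by
      intro i ω
      obtain ⟨F, hF1, hF2, hF3⟩ := hF i ω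
      exact ⟨F, hF1, hF2, fun m hm m' hm' h => hF3 m hm m' hm' (hcol i ω ω m m' h)⟩)
  refine ⟨n, fun i y hy hr => ?_⟩
  set x : ∀ ω, S ω := c i * n with hx
  have hxω : ∀ ω, x ω = c i ω * n ω := fun ω => rfl
  have hσy : σ y = 1 := by
    apply hn2 i (σ y) (Subgroup.mem_map_of_mem σ hy)
    intro ω
    symm
    apply Quotient.sound
    change Rel (R i) ω (σ y ω) (c i ω * n ω) (c i (σ y ω) * n (σ y ω))
    refine ⟨y, hy, _, hr, fun a => ?_⟩
    obtain ⟨b, hb⟩ := hσ1 y ω a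
    refine ⟨b, hb, ?_⟩
    rw [← hxω, ← hxω, MulAut.mul_apply, MulAut.mul_apply, conj_inv_single]
    have : (x ω)⁻¹ * (x ω * a * (x ω)⁻¹) * x ω = a := by group
    rw [this, hb, conj_single]
  have hpres : ∀ ω (a : S ω), ∃ b : S ω, y (Pi.mulSingle ω a) = Pi.mulSingle ω b := by
    intro ω a
    obtain ⟨b, hb⟩ := hσ1 y ω a
    have h1 : σ y ω = ω := by rw [hσy]; rfl
    revert b
    rw [h1]
    intro b hb
    exact ⟨b, hb⟩
  have hy1 : ∀ ω (a : S ω), y (Pi.mulSingle ω a) = Pi.mulSingle ω a := by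
    intro ω a
    obtain ⟨t, ht⟩ := exists_restr y ω (hpres ω)
    have ht1 : t = 1 := by
      apply hn1 ω i t ⟨y, hy, ht⟩
      refine ⟨_, hr, fun a => ?_⟩
      rw [← hxω, MulAut.mul_apply, MulAut.mul_apply, conj_inv_single, ht, conj_single,
        MulAut.mul_apply, MulAut.mul_apply, ← map_inv, MulAut.conj_apply, MulAut.conj_apply,
        inv_inv]
    rw [ht, ht1, MulAut.one_apply]
  have h3 : y.toMonoidHom = MonoidHom.id _ := by
    apply MonoidHom.pi_ext
    intro ω a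
    exact hy1 ω a
  ext1 a
  exact DFunLike.congr_fun h3 a

end Pool.Agent.Helper72.SA
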